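import Mathlib

/-!
# Fenchel's theorem: the total curvature of a closed curve is at least `2π`
-/

set_option autoImplicit false

open scoped Real
open MeasureTheory Set Filter Topology

namespace Pool.Agent.U123.Curves

variable {E : Type*} [NormedAddCommGroup E] [InnerProductSpace ℝ E]

theorem abs_inner_le {T T' u : E} (hT : ‖T‖ = 1) (hu : ‖u‖ = 1) (hTT : inner ℝ T T' = 0) :
    |inner ℝ T' u| ≤ ‖T'‖ * √(1 - inner ℝ T u ^ 2) := by
  have h1 : inner ℝ T' u = inner ℝ T' (u - inner ℝ T u • T) := by
    rw [inner_sub_right, inner_smul_right, real_inner_comm T T', hTT, mul_zero, sub_zero]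
  have h2 : ‖u - inner ℝ T u • T‖ = √(1 - inner ℝ T u ^ 2) := by
    rw [← Real.sqrt_sq (norm_nonneg _)]
    congr 1
    rw [norm_sub_sq_real, norm_smul, inner_smul_right, hu, hT, real_inner_comm T u]
    rw [mul_one, Real.norm_eq_abs, sq_abs]
    ring
  rw [h1, ← h2]
  exact abs_real_inner_le_norm _ _

/-- A curve on the unit sphere from `T a` to `T b` is at least as long as the difference of the
angular distances of its end points to a given point `u`. -/
theorem arccos_sub_le {T T' : ℝ → E} (hT : ∀ t, HasDerivAt T (T' t) t) (hT' : Continuous T')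
    (h1 : ∀ t, ‖T t‖ = 1) {u : E} (hu : ‖u‖ = 1) {a b : ℝ} (hab : a ≤ b) :
    |Real.arccos (inner ℝ (T b) u) - Real.arccos (inner ℝ (T a) u)| ≤ ∫ t in a..b, ‖T' t‖ := by
  have hTc : Continuous T := continuous_iff_continuousAt.2 fun t => (hT t).continuousAt
  have horth : ∀ t, inner ℝ (T t) (T' t) = 0 := by
    intro t
    have h := (hT t).inner ℝ (hT t)
    have h2 : HasDerivAt (fun t => inner ℝ (T t) (T t)) 0 t := by
      have : (fun t => inner ℝ (T t) (T t)) = fun _ => (1 : ℝ) := by
        funext s
        rw [real_inner_self_eq_norm_sq, h1, one_pow]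
      rw [this]
      exact hasDerivAt_const _ _
    have h3 := h.unique h2
    rw [real_inner_comm (T t) (T' t)] at h3
    linarith
  have hle : ∀ t, |inner ℝ (T t) u| ≤ 1 := fun t => by
    have := abs_real_inner_le_norm (T t) u
    rwa [h1, hu, mul_one] at this
  have key : ∀ l ∈ Ioo (0 : ℝ) 1, |Real.arccos (l * inner ℝ (T b) u) -
      Real.arccos (l * inner ℝ (T a) u)| ≤ ∫ t in a..b, ‖T' t‖ := by
    rintro l ⟨hl0, hl1⟩
    have hg : ∀ t, HasDerivAt (fun t => l * inner ℝ (T t) u) (l * inner ℝ (T' t) u) t := by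
      intro t
      have := (hT t).inner ℝ (hasDerivAt_const t u)
      simp only [inner_zero_right, zero_add] at this
      exact this.const_mul l
    have hlt : ∀ t, (l * inner ℝ (T t) u) ^ 2 < 1 := by
      intro t
      have h2 := abs_le.1 (hle t)
      have h3 : (inner ℝ (T t) u) ^ 2 ≤ 1 := by nlinarith
      have h4 : l ^ 2 < 1 := by nlinarith
      rw [mul_pow]
      calc l ^ 2 * inner ℝ (T t) u ^ 2 ≤ l ^ 2 * 1 := by gcongr
        _ < 1 := by linarith
    have hd : ∀ t, HasDerivAt (fun t => Real.arccos (l * inner ℝ (T t) u))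
        (-(1 / √(1 - (l * inner ℝ (T t) u) ^ 2)) * (l * inner ℝ (T' t) u)) t := by
      intro t
      have h2 := hlt t
      refine (Real.hasDerivAt_arccos ?_ ?_).comp t (hg t)
      · intro h
        rw [h] at h2
        norm_num at h2
      · intro h
        rw [h] at h2
        norm_num at h2
    have hcont : Continuous fun t => -(1 / √(1 - (l * inner ℝ (T t) u) ^ 2)) *
        (l * inner ℝ (T' t) u) := by
      have h3 : ∀ t, √(1 - (l * inner ℝ (T t) u) ^ 2) ≠ 0 := fun t =>
        (Real.sqrt_pos.2 (by linarith [hlt t])).ne'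
      have h4 : Continuous fun t => √(1 - (l * inner ℝ (T t) u) ^ 2) :=
        Real.continuous_sqrt.comp (continuous_const.sub
          ((continuous_const.mul (hTc.inner continuous_const)).pow 2))
      exact (continuous_const.div h4 h3).neg.mul
        (continuous_const.mul (hT'.inner continuous_const))
    rw [← intervalIntegral.integral_eq_sub_of_hasDerivAt (fun t _ => hd t)
      (hcont.intervalIntegrable _ _), ← Real.norm_eq_abs]
    refine intervalIntegral.norm_integral_le_of_norm_le hab ?_ (hT'.norm.intervalIntegrable _ _)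
    refine Eventually.of_forall fun t _ => ?_
    have h5 := abs_inner_le (h1 t) hu (horth t)
    have h6 : 0 < 1 - (l * inner ℝ (T t) u) ^ 2 := by linarith [hlt t]
    have h7 : 0 < √(1 - (l * inner ℝ (T t) u) ^ 2) := Real.sqrt_pos.2 h6
    rw [norm_mul, norm_neg, norm_div, norm_one, Real.norm_of_nonneg h7.le, norm_mul,
      Real.norm_of_nonneg hl0.le, Real.norm_eq_abs, one_div, inv_mul_le_iff₀ h7]
    have h8 : l * √(1 - inner ℝ (T t) u ^ 2) ≤ √(1 - (l * inner ℝ (T t) u) ^ 2) := by
      rw [← Real.sqrt_sq hl0.le, ← Real.sqrt_mul (sq_nonneg l), Real.sqrt_sq hl0.le]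
      apply Real.sqrt_le_sqrt
      nlinarith
    calc l * |inner ℝ (T' t) u| ≤ l * (‖T' t‖ * √(1 - inner ℝ (T t) u ^ 2)) :=
          mul_le_mul_of_nonneg_left h5 hl0.le
      _ = (l * √(1 - inner ℝ (T t) u ^ 2)) * ‖T' t‖ := by ring
      _ ≤ √(1 - (l * inner ℝ (T t) u) ^ 2) * ‖T' t‖ :=
          mul_le_mul_of_nonneg_right h8 (norm_nonneg _)
  have hlim : Tendsto (fun l : ℝ => |Real.arccos (l * inner ℝ (T b) u) -
      Real.arccos (l * inner ℝ (T a) u)|) (𝓝[<] 1)
      (𝓝 |Real.arccos (inner ℝ (T b) u) - Real.arccos (inner ℝ (T a) u)|) := by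
    have hc : Continuous fun l : ℝ => |Real.arccos (l * inner ℝ (T b) u) -
      Real.arccos (l * inner ℝ (T a) u)| :=
      ((Real.continuous_arccos.comp (continuous_id.mul continuous_const)).sub
        (Real.continuous_arccos.comp (continuous_id.mul continuous_const))).abs
    have := hc.tendsto 1
    simp only [one_mul] at this
    exact this.mono_left nhdsWithin_le_nhds
  refine le_of_tendsto hlim ?_
  filter_upwards [Ioo_mem_nhdsLT (zero_lt_one (α := ℝ))] with l hl using key l hl

/-- **Fenchel's theorem** for the tangent indicatrix `T`. -/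
theorem fenchel [CompleteSpace E] {T T' : ℝ → E} (hT : ∀ t, HasDerivAt T (T' t) t) (hT' : Continuous T')
    (h1 : ∀ t, ‖T t‖ = 1) {a b : ℝ} (hab : a < b) (hclosed : T b = T a)
    {w : ℝ → ℝ} (hw : Continuous w) (hw0 : ∀ t, 0 < w t) (hint : ∫ t in a..b, w t • T t = 0) :
    2 * π ≤ ∫ t in a..b, ‖T' t‖ := by
  have hTc : Continuous T := continuous_iff_continuousAt.2 fun t => (hT t).continuousAt
  have hii : ∀ c d, IntervalIntegrable (fun t => ‖T' t‖) volume c d := fun c d =>
    hT'.norm.intervalIntegrable _ _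
  -- the midpoint
  obtain ⟨m, hm, hmid⟩ : ∃ m ∈ Icc a b, ∫ t in a..m, ‖T' t‖ = (∫ t in a..b, ‖T' t‖) / 2 := by
    have hF : Continuous fun s => ∫ t in a..s, ‖T' t‖ :=
      intervalIntegral.continuous_primitive (fun c d => hii c d) a
    have h0 : 0 ≤ ∫ t in a..b, ‖T' t‖ :=
      intervalIntegral.integral_nonneg hab.le fun t _ => norm_nonneg _
    have := intermediate_value_Icc hab.le hF.continuousOn
    have h2 : (∫ t in a..b, ‖T' t‖) / 2 ∈ Icc (∫ t in a..a, ‖T' t‖) (∫ t in a..b, ‖T' t‖) := by
      rw [intervalIntegral.integral_same]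
      constructor <;> linarith
    obtain ⟨m, hm, h3⟩ := this h2
    exact ⟨m, hm, h3⟩
  have hmid2 : ∫ t in m..b, ‖T' t‖ = (∫ t in a..b, ‖T' t‖) / 2 := by
    have := intervalIntegral.integral_add_adjacent_intervals (hii a m) (hii m b)
    linarith
  -- a point of the curve orthogonal to `T a + T m`
  obtain ⟨s, hs, horth⟩ : ∃ s ∈ Icc a b, inner ℝ (T s) (T a + T m) = 0 := by
    by_contra hcon
    push Not at hcon
    have hh : Continuous fun t => inner ℝ (T t) (T a + T m) := hTc.inner continuous_const
    have hzero : ∫ t in a..b, w t * inner ℝ (T t) (T a + T m) = 0 := by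
      have h2 : ∫ t in a..b, inner ℝ (T a + T m) (w t • T t) =
          inner ℝ (T a + T m) (∫ t in a..b, w t • T t) := by
        have := (innerSL ℝ (T a + T m)).intervalIntegral_comp_comm
          ((hw.smul hTc).intervalIntegrable (μ := volume) a b)
        simp only [innerSL_apply_apply] at this
        exact this
      rw [hint, inner_zero_right] at h2
      rw [← h2]
      refine intervalIntegral.integral_congr fun t _ => ?_
      simp only [inner_smul_right]
      rw [real_inner_comm]
    have hcont : ContinuousOn (fun t => w t * inner ℝ (T t) (T a + T m)) (Icc a b) :=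
      (hw.mul hh).continuousOn
    have hsign : (∀ t ∈ Icc a b, 0 < inner ℝ (T t) (T a + T m)) ∨
        (∀ t ∈ Icc a b, inner ℝ (T t) (T a + T m) < 0) := by
      by_contra hns
      push Not at hns
      obtain ⟨⟨t1, ht1, hn1⟩, ⟨t2, ht2, hn2⟩⟩ := hns
      have hpre : IsPreconnected (Icc a b) := isPreconnected_Icc
      obtain ⟨t3, ht3, h3⟩ := hpre.intermediate_value ht1 ht2 hh.continuousOn ⟨hn1, hn2⟩
      exact hcon t3 ht3 h3
    rcases hsign with hpos | hneg
    · have := intervalIntegral.intervalIntegral_pos_of_pos_on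
        ((hw.mul hh).intervalIntegrable a b)
        (fun t ht => mul_pos (hw0 t) (hpos t (Ioo_subset_Icc_self ht))) hab
      exact this.ne' hzero
    · have := intervalIntegral.intervalIntegral_pos_of_pos_on
        ((hw.mul hh).neg.intervalIntegrable a b)
        (fun t ht => neg_pos.2 (mul_neg_of_pos_of_neg (hw0 t) (hneg t (Ioo_subset_Icc_self ht)))) hab
      have h5 : ∫ x in a..b, (-(w * fun t => inner ℝ (T t) (T a + T m))) x =
          -∫ t in a..b, w t * inner ℝ (T t) (T a + T m) := by
        rw [← intervalIntegral.integral_neg]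
        rfl
      rw [h5, hzero, neg_zero] at this
      exact lt_irrefl _ this
  rw [inner_add_right] at horth
  set c := inner ℝ (T a) (T s) with hc
  have hcm : inner ℝ (T m) (T s) = -c := by
    rw [hc, real_inner_comm (T s) (T a), real_inner_comm (T s) (T m)]
    linarith
  have hss : inner ℝ (T s) (T s) = 1 := by
    rw [real_inner_self_eq_norm_sq, h1, one_pow]
  have hsum := Real.arccos_neg c
  rcases le_total s m with hsm | hms
  · have e1 := arccos_sub_le hT hT' h1 (h1 s) (u := T s) hs.1
    have e2 := arccos_sub_le hT hT' h1 (h1 s) (u := T s) hsm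
    rw [hss, Real.arccos_one] at e1 e2
    rw [← hc, zero_sub, abs_neg, abs_of_nonneg (Real.arccos_nonneg _)] at e1
    rw [hcm, sub_zero, abs_of_nonneg (Real.arccos_nonneg _)] at e2
    have := intervalIntegral.integral_add_adjacent_intervals (hii a s) (hii s m)
    linarith
  · have e1 := arccos_sub_le hT hT' h1 (h1 s) (u := T s) hms
    have e2 := arccos_sub_le hT hT' h1 (h1 s) (u := T s) hs.2
    rw [hss, Real.arccos_one] at e1 e2
    rw [hcm, zero_sub, abs_neg, abs_of_nonneg (Real.arccos_nonneg _)] at e1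
    rw [hclosed, ← hc, sub_zero, abs_of_nonneg (Real.arccos_nonneg _)] at e2
    have := intervalIntegral.integral_add_adjacent_intervals (hii m s) (hii s b)
    linarith

end Pool.Agent.U123.Curves
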