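import Pool.Agent.U123.CurveDefs
import Pool.Agent.U123.Fenchel

/-!
# The length of the Frenet frame of a closed nondegenerate curve exceeds `2π`
-/

set_option autoImplicit false

open scoped ContDiff Real
open InnerProductSpace MeasureTheory

namespace Pool.Agent.U123.Curves

section

variable {n : ℕ} {γ : ℝ → EuclideanSpace ℝ (Fin n)}

/-- the derivatives -/
noncomputable def vv (γ : ℝ → EuclideanSpace ℝ (Fin n)) (j : Fin n) (t : ℝ) :
    EuclideanSpace ℝ (Fin n) := iteratedDeriv (j + 1) γ t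

/-- the orthogonalised derivatives -/
noncomputable def gs (γ : ℝ → EuclideanSpace ℝ (Fin n)) (j : Fin n) (t : ℝ) :
    EuclideanSpace ℝ (Fin n) := gramSchmidt ℝ (fun j : Fin n => iteratedDeriv (j + 1) γ t) j

theorem gs_ne (hN : Nondegenerate γ) (j : Fin n) (t : ℝ) : gs γ j t ≠ 0 :=
  gramSchmidt_ne_zero j (hN t)

theorem gs_eq (j : Fin n) (t : ℝ) : gs γ j t = vv γ j t -
    ∑ i ∈ Finset.Iio j, (inner ℝ (gs γ i t) (vv γ j t) / ‖gs γ i t‖ ^ 2) • gs γ i t := by
  unfold gs
  rw [gramSchmidt_def]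
  simp only [Submodule.starProjection_singleton]
  rfl

theorem vv_contDiff (hγ : ContDiff ℝ ∞ γ) (j : Fin n) : ContDiff ℝ ∞ (vv γ j) := by
  have : ∀ k : ℕ, ContDiff ℝ ∞ (iteratedDeriv k γ) := by
    intro k
    induction k with
    | zero => rw [iteratedDeriv_zero]; exact hγ
    | succ k ih =>
      rw [iteratedDeriv_succ]
      exact (contDiff_infty_iff_deriv.1 ih).2
  exact this _

theorem gs_contDiff (hγ : ContDiff ℝ ∞ γ) (hN : Nondegenerate γ) (j : Fin n) :
    ContDiff ℝ ∞ (gs γ j) := by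
  induction j using WellFoundedLT.induction with
  | ind j ih =>
    have h : gs γ j = fun t => vv γ j t -
        ∑ i ∈ Finset.Iio j, (inner ℝ (gs γ i t) (vv γ j t) / ‖gs γ i t‖ ^ 2) • gs γ i t := by
      funext t
      exact gs_eq j t
    rw [h]
    refine (vv_contDiff hγ j).sub (ContDiff.sum fun i hi => ?_)
    have hi' := ih i (Finset.mem_Iio.1 hi)
    have h1 : ContDiff ℝ ∞ fun t => inner ℝ (gs γ i t) (vv γ j t) := hi'.inner ℝ (vv_contDiff hγ j)
    have h2 : ContDiff ℝ ∞ fun t => ‖gs γ i t‖ ^ 2 := hi'.norm_sq ℝ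
    exact (h1.div h2 fun t => pow_ne_zero 2 (norm_ne_zero_iff.2 (gs_ne hN i t))).smul hi'

theorem frame_eq (j : Fin n) : frame γ j = fun t => (‖gs γ j t‖)⁻¹ • gs γ j t := rfl

theorem frame_contDiff (hγ : ContDiff ℝ ∞ γ) (hN : Nondegenerate γ) (j : Fin n) :
    ContDiff ℝ ∞ (frame γ j) := by
  rw [frame_eq]
  have h1 := gs_contDiff hγ hN j
  exact ((h1.norm ℝ (gs_ne hN j)).inv fun t => norm_ne_zero_iff.2 (gs_ne hN j t)).smul h1

theorem norm_frame (hN : Nondegenerate γ) (j : Fin n) (t : ℝ) : ‖frame γ j t‖ = 1 :=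
  gramSchmidtNormed_unit_length j (hN t)

theorem frame_orth {i j : Fin n} (hij : i ≠ j) (t : ℝ) : inner ℝ (frame γ i t) (frame γ j t) = 0 := by
  rw [frame_eq, frame_eq]
  simp only [inner_smul_left, inner_smul_right]
  have : inner ℝ (gs γ i t) (gs γ j t) = 0 :=
    gramSchmidt_orthogonal ℝ (fun j : Fin n => iteratedDeriv (j + 1) γ t) hij
  rw [this]
  simp

theorem vv_frame {i j : Fin n} (hij : i < j) (t : ℝ) : inner ℝ (vv γ i t) (frame γ j t) = 0 := by
  rw [frame_eq]
  simp only [inner_smul_right]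
  have : inner ℝ (gs γ j t) (vv γ i t) = 0 :=
    gramSchmidt_inv_triangular ℝ (fun j : Fin n => iteratedDeriv (j + 1) γ t) hij
  rw [real_inner_comm, this, mul_zero]

theorem vv_frame_self (hN : Nondegenerate γ) (j : Fin n) (t : ℝ) :
    inner ℝ (vv γ j t) (frame γ j t) ≠ 0 := by
  rw [frame_eq]
  simp only [inner_smul_right]
  have h1 : inner ℝ (vv γ j t) (gs γ j t) = inner ℝ (gs γ j t) (gs γ j t) := by
    have h2 : vv γ j t = gs γ j t +
        ∑ i ∈ Finset.Iio j, (inner ℝ (gs γ i t) (vv γ j t) / ‖gs γ i t‖ ^ 2) • gs γ i t := by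
      rw [gs_eq j t]
      abel
    conv_lhs => rw [h2]
    rw [inner_add_left, sum_inner, Finset.sum_eq_zero, add_zero]
    intro i hi
    rw [inner_smul_left]
    have : inner ℝ (gs γ i t) (gs γ j t) = 0 :=
      gramSchmidt_orthogonal ℝ (fun j : Fin n => iteratedDeriv (j + 1) γ t)
        (Finset.mem_Iio.1 hi).ne
    rw [this, mul_zero]
  rw [h1, real_inner_self_eq_norm_sq]
  have := norm_ne_zero_iff.2 (gs_ne hN j t)
  positivity

theorem hasDerivAt_vv (hγ : ContDiff ℝ ∞ γ) (i j : Fin n) (hij : (j : ℕ) = i + 1) (t : ℝ) :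
    HasDerivAt (vv γ i) (vv γ j t) t := by
  have h1 : vv γ j t = deriv (vv γ i) t := by
    unfold vv
    rw [hij, iteratedDeriv_succ]
  rw [h1]
  exact ((vv_contDiff hγ i).differentiable (by simp) t).hasDerivAt

theorem hasDerivAt_frame (hγ : ContDiff ℝ ∞ γ) (hN : Nondegenerate γ) (i : Fin n) (t : ℝ) :
    HasDerivAt (frame γ i) (deriv (frame γ i) t) t :=
  ((frame_contDiff hγ hN i).differentiable (by simp) t).hasDerivAt

theorem frame_deriv_orth (hγ : ContDiff ℝ ∞ γ) (hN : Nondegenerate γ) (i : Fin n) (t : ℝ) :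
    inner ℝ (frame γ i t) (deriv (frame γ i) t) = 0 := by
  have h := (hasDerivAt_frame hγ hN i t).inner ℝ (hasDerivAt_frame hγ hN i t)
  have h2 : HasDerivAt (fun t => inner ℝ (frame γ i t) (frame γ i t)) 0 t := by
    have : (fun t => inner ℝ (frame γ i t) (frame γ i t)) = fun _ => (1 : ℝ) := by
      funext s
      rw [real_inner_self_eq_norm_sq, norm_frame hN, one_pow]
    rw [this]
    exact hasDerivAt_const _ _
  have h3 := h.unique h2
  rw [real_inner_comm (frame γ i t) (deriv (frame γ i) t)] at h3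
  linarith

theorem gs_zero (i : Fin n) (hi : (i : ℕ) = 0) (t : ℝ) : gs γ i t = vv γ i t := by
  rw [gs_eq, Finset.sum_eq_zero, sub_zero]
  intro j hj
  have := Finset.mem_Iio.1 hj
  rw [Fin.lt_def] at this
  omega

theorem gs_one (i j : Fin n) (hi : (i : ℕ) = 0) (hj : (j : ℕ) = 1) (t : ℝ) :
    gs γ j t = vv γ j t - (inner ℝ (vv γ i t) (vv γ j t) / ‖vv γ i t‖ ^ 2) • vv γ i t := by
  rw [gs_eq]
  have : Finset.Iio j = {i} := by
    ext k
    rw [Finset.mem_Iio, Finset.mem_singleton, Fin.lt_def, Fin.ext_iff]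
    omega
  rw [this, Finset.sum_singleton, gs_zero i hi]

/-- `e_1' = κ_1 |γ'| e_2` -/
theorem norm_deriv_frame_zero (hγ : ContDiff ℝ ∞ γ) (hN : Nondegenerate γ) (i j : Fin n)
    (hi : (i : ℕ) = 0) (hj : (j : ℕ) = 1) (t : ℝ) :
    |inner ℝ (deriv (frame γ i) t) (frame γ j t)| = ‖deriv (frame γ i) t‖ := by
  have hne : ‖vv γ i t‖ ≠ 0 := by
    rw [← gs_zero i hi]
    exact norm_ne_zero_iff.2 (gs_ne hN i t)
  have hfr : frame γ i = fun t => (‖vv γ i t‖)⁻¹ • vv γ i t := by
    rw [frame_eq]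
    funext s
    rw [gs_zero i hi]
  have hφ : ContDiff ℝ ∞ fun t => (‖vv γ i t‖)⁻¹ := by
    have h1 := (gs_contDiff hγ hN i).norm ℝ (gs_ne hN i)
    have h2 := h1.inv fun t => norm_ne_zero_iff.2 (gs_ne hN i t)
    have h3 : (fun t => (‖vv γ i t‖)⁻¹) = fun t => (‖gs γ i t‖)⁻¹ := by
      funext s
      rw [gs_zero i hi]
    rw [h3]
    exact h2
  have hφd : HasDerivAt (fun t => (‖vv γ i t‖)⁻¹) (deriv (fun t => (‖vv γ i t‖)⁻¹) t) t :=
    (hφ.differentiable (by simp) t).hasDerivAt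
  set φ' := deriv (fun t => (‖vv γ i t‖)⁻¹) t with hφ'
  have hd := hφd.smul (hasDerivAt_vv hγ i j (by omega) t)
  have hd' : HasDerivAt (frame γ i) ((‖vv γ i t‖)⁻¹ • vv γ j t + φ' • vv γ i t) t := by
    rw [hfr]
    exact hd
  have horth := frame_deriv_orth hγ hN i t
  rw [hd'.deriv] at horth ⊢
  set c := inner ℝ (vv γ i t) (vv γ j t) / ‖vv γ i t‖ ^ 2 with hc
  have hvj : vv γ j t = gs γ j t + c • vv γ i t := by
    rw [gs_one i j hi hj]
    abel
  have ho : inner ℝ (vv γ i t) (gs γ j t) = 0 := by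
    rw [real_inner_comm]
    exact gramSchmidt_inv_triangular ℝ (fun j : Fin n => iteratedDeriv (j + 1) γ t)
      (i := i) (j := j) (by rw [Fin.lt_def]; omega)
  have hsum : (‖vv γ i t‖)⁻¹ • vv γ j t + φ' • vv γ i t =
      (‖vv γ i t‖)⁻¹ • gs γ j t + ((‖vv γ i t‖)⁻¹ * c + φ') • vv γ i t := by
    rw [hvj, smul_add, smul_smul, add_smul]
    abel
  have hz : (‖vv γ i t‖)⁻¹ * c + φ' = 0 := by
    rw [hsum, congrFun hfr t, inner_smul_left, inner_add_right, inner_smul_right, inner_smul_right,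
      ho, real_inner_self_eq_norm_sq] at horth
    simp only [conj_trivial, mul_zero, zero_add] at horth
    have h1 : (‖vv γ i t‖)⁻¹ ≠ 0 := inv_ne_zero hne
    have h2 : ‖vv γ i t‖ ^ 2 ≠ 0 := pow_ne_zero 2 hne
    rcases mul_eq_zero.1 horth with h | h
    · exact absurd h h1
    · exact (mul_eq_zero.1 h).resolve_right h2
  rw [hsum, hz, zero_smul, add_zero, frame_eq]
  simp only [inner_smul_left, inner_smul_right, norm_smul, norm_inv, norm_norm,
    real_inner_self_eq_norm_sq, conj_trivial]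
  have hne' : ‖gs γ j t‖ ≠ 0 := norm_ne_zero_iff.2 (gs_ne hN j t)
  rw [abs_of_nonneg (by positivity)]
  field_simp

/-- `κ_2 ≠ 0` -/
theorem second_curvature_ne (hγ : ContDiff ℝ ∞ γ) (hN : Nondegenerate γ) (i j k : Fin n)
    (hi : (i : ℕ) = 0) (hj : (j : ℕ) = 1) (hk : (k : ℕ) = 2) (t : ℝ) :
    inner ℝ (deriv (frame γ j) t) (frame γ k t) ≠ 0 := by
  have hij : i < k := by rw [Fin.lt_def]; omega
  have hjk : j < k := by rw [Fin.lt_def]; omega
  have zero_deriv : ∀ {f g : ℝ → EuclideanSpace ℝ (Fin n)} {f' g' : EuclideanSpace ℝ (Fin n)},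
      HasDerivAt f f' t → HasDerivAt g g' t → (∀ s, inner ℝ (f s) (g s) = 0) →
      inner ℝ (f t) g' + inner ℝ f' (g t) = 0 := by
    intro f g f' g' hf hg h0
    have h := hf.inner ℝ hg
    have h2 : HasDerivAt (fun s => inner ℝ (f s) (g s)) 0 t := by
      have : (fun s => inner ℝ (f s) (g s)) = fun _ => (0 : ℝ) := funext h0
      rw [this]
      exact hasDerivAt_const _ _
    exact h.unique h2
  have e0 := zero_deriv (hasDerivAt_vv hγ i j (by omega) t) (hasDerivAt_frame hγ hN k t)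
    (vv_frame hij)
  have e1 := zero_deriv (hasDerivAt_vv hγ j k (by omega) t) (hasDerivAt_frame hγ hN k t)
    (vv_frame hjk)
  have e2 := zero_deriv (hasDerivAt_frame hγ hN j t) (hasDerivAt_frame hγ hN k t)
    (frame_orth hjk.ne)
  rw [vv_frame hjk, add_zero] at e0
  have h3 := vv_frame_self hN k t
  have h4 : inner ℝ (vv γ j t) (deriv (frame γ k) t) ≠ 0 := by
    intro h
    rw [h, zero_add] at e1
    exact h3 e1
  have hvj : vv γ j t = gs γ j t + (inner ℝ (vv γ i t) (vv γ j t) / ‖vv γ i t‖ ^ 2) • vv γ i t := by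
    rw [gs_one i j hi hj]
    abel
  rw [hvj, inner_add_left, inner_smul_left, e0, mul_zero, add_zero] at h4
  intro h5
  rw [h5, add_zero, frame_eq] at e2
  simp only [inner_smul_left, conj_trivial] at e2
  have hne' : (‖gs γ j t‖)⁻¹ ≠ 0 := inv_ne_zero (norm_ne_zero_iff.2 (gs_ne hN j t))
  exact h4 ((mul_eq_zero.1 e2).resolve_left hne')

theorem deriv_ne (hN : Nondegenerate γ) (hn : 0 < n) (t : ℝ) : deriv γ t ≠ 0 := by
  have := gs_ne hN ⟨0, hn⟩ t
  rw [gs_zero ⟨0, hn⟩ rfl] at this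
  unfold vv at this
  simpa using this

theorem frameLength_gt (hn : 3 ≤ n) (hγ : IsClosedCurve γ) (hN : Nondegenerate γ) :
    2 * π < frameLength γ := by
  have hs := hγ.smooth
  let i0 : Fin n := ⟨0, by omega⟩
  let i1 : Fin n := ⟨1, by omega⟩
  let i2 : Fin n := ⟨2, by omega⟩
  have hdc : Continuous (deriv γ) := (contDiff_infty_iff_deriv.1 hs).2.continuous
  have hfc : ∀ i, Continuous (frame γ i) := fun i => (frame_contDiff hs hN i).continuous
  have hfdc : ∀ i, Continuous (deriv (frame γ i)) := fun i =>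
    (contDiff_infty_iff_deriv.1 (frame_contDiff hs hN i)).2.continuous
  have hne : ∀ t, ‖deriv γ t‖ ≠ 0 := fun t => norm_ne_zero_iff.2 (deriv_ne hN (by omega) t)
  have hv0 : ∀ t, vv γ i0 t = deriv γ t := by
    intro t
    unfold vv
    simp [i0]
  -- Fenchel
  have hF : 2 * π ≤ ∫ t in (0 : ℝ)..(2 * π), ‖deriv (frame γ i0) t‖ := by
    refine fenchel (T := frame γ i0) (w := fun t => ‖deriv γ t‖)
      (fun t => hasDerivAt_frame hs hN i0 t) (hfdc i0) (norm_frame hN i0) (by positivity) ?_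
      hdc.norm (fun t => lt_of_le_of_ne (norm_nonneg _) (hne t).symm) ?_
    · have hp : ∀ k, Function.Periodic (iteratedDeriv k γ) (2 * π) := by
        intro k t
        have h1 := congrFun (iteratedDeriv_comp_add_const (n := k) (f := γ) (2 * π)) t
        have h2 : (fun z => γ (z + 2 * π)) = γ := funext hγ.periodic
        rw [h2] at h1
        exact h1.symm
      have h3 : ∀ k : ℕ, iteratedDeriv k γ (2 * π) = iteratedDeriv k γ 0 := by
        intro k
        have := hp k 0
        rwa [zero_add] at this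
      unfold frame
      simp only [h3]
    · have h1 : ∀ t, ‖deriv γ t‖ • frame γ i0 t = deriv γ t := by
        intro t
        rw [frame_eq]
        simp only [gs_zero i0 rfl, hv0]
        rw [smul_smul, mul_inv_cancel₀ (hne t), one_smul]
      simp only [h1]
      rw [intervalIntegral.integral_deriv_eq_sub
        (fun t _ => hs.differentiable (by simp) t) (hdc.intervalIntegrable _ _)]
      have := hγ.periodic 0
      rw [zero_add] at this
      rw [this, sub_self]
  refine hF.trans_lt ?_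
  unfold frameLength
  have hcurv : ∀ i : Fin (n - 1), Continuous (curvature γ i) := fun i =>
    ((hfdc _).inner (hfc _)).div hdc.norm hne
  have hlt : ∀ t, ‖deriv (frame γ i0) t‖ <
      √(∑ i : Fin (n - 1), curvature γ i t ^ 2) * ‖deriv γ t‖ := by
    intro t
    have hpos : 0 < ‖deriv γ t‖ := lt_of_le_of_ne (norm_nonneg _) (hne t).symm
    rw [← norm_deriv_frame_zero hs hN i0 i1 rfl rfl t, ← div_lt_iff₀ hpos]
    have h1 : |inner ℝ (deriv (frame γ i0) t) (frame γ i1 t)| / ‖deriv γ t‖ =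
        √(curvature γ ⟨0, by omega⟩ t ^ 2) := by
      rw [Real.sqrt_sq_eq_abs]
      unfold curvature
      rw [abs_div, abs_norm]
    rw [h1]
    apply Real.sqrt_lt_sqrt (sq_nonneg _)
    have h2 : 0 < curvature γ ⟨1, by omega⟩ t ^ 2 := by
      have : curvature γ ⟨1, by omega⟩ t ≠ 0 := by
        unfold curvature
        exact div_ne_zero (second_curvature_ne hs hN i0 i1 i2 rfl rfl rfl t) (hne t)
      positivity
    calc curvature γ ⟨0, by omega⟩ t ^ 2 <
        curvature γ ⟨0, by omega⟩ t ^ 2 + curvature γ ⟨1, by omega⟩ t ^ 2 := by linarith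
      _ = ∑ i ∈ ({⟨0, by omega⟩, ⟨1, by omega⟩} : Finset (Fin (n - 1))), curvature γ i t ^ 2 := by
          rw [Finset.sum_pair]
          intro h
          rw [Fin.ext_iff] at h
          simp at h
      _ ≤ ∑ i : Fin (n - 1), curvature γ i t ^ 2 :=
          Finset.sum_le_univ_sum_of_nonneg fun i => sq_nonneg _
  refine intervalIntegral.integral_lt_integral_of_continuousOn_of_le_of_exists_lt (by positivity)
    (hfdc i0).norm.continuousOn ?_ (fun t _ => (hlt t).le) ⟨0, ⟨le_rfl, by positivity⟩, hlt 0⟩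
  exact ((Real.continuous_sqrt.comp (continuous_finsetSum _ fun i _ => (hcurv i).pow 2)).mul
    hdc.norm).continuousOn

end

end Pool.Agent.U123.Curves
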