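import Mathlib

/-!
# Closed nondegenerate curves, their Frenet frames, and perturbations of multiply traversed circles
-/

set_option autoImplicit false

open scoped ContDiff

namespace Pool.Agent.U123.Curves

/-- A smooth closed curve in `ℝⁿ`, parametrised by `S¹ = ℝ / 2πℤ`. -/
structure IsClosedCurve {n : ℕ} (γ : ℝ → EuclideanSpace ℝ (Fin n)) : Prop where
  smooth : ContDiff ℝ ∞ γ
  periodic : Function.Periodic γ (2 * Real.pi)

/-- The curve is nondegenerate: `γ'(t), γ''(t), …, γ⁽ⁿ⁾(t)` are linearly independent for all `t`. -/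
def Nondegenerate {n : ℕ} (γ : ℝ → EuclideanSpace ℝ (Fin n)) : Prop :=
  ∀ t, LinearIndependent ℝ fun i : Fin n => iteratedDeriv (i + 1) γ t

/-- The unit circle `c_m(t) = (cos mt, sin mt, 0, …, 0)`, traversed `m` times. -/
noncomputable def circle (n m : ℕ) (t : ℝ) : EuclideanSpace ℝ (Fin n) :=
  WithLp.toLp 2 fun i : Fin n => if (i : ℕ) = 0 then Real.cos (m * t) else
    if (i : ℕ) = 1 then Real.sin (m * t) else 0

/-- Every `C^∞`-neighbourhood of `c_m` contains a nondegenerate closed curve in `ℝⁿ`: for every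
order `K` and every `ε > 0` there is such a curve, all of whose derivatives of order at most `K` are
uniformly `ε`-close to those of `c_m`. -/
def Perturbable (n m : ℕ) : Prop :=
  ∀ (K : ℕ) (ε : ℝ), 0 < ε → ∃ γ : ℝ → EuclideanSpace ℝ (Fin n), IsClosedCurve γ ∧
    Nondegenerate γ ∧ ∀ k ≤ K, ∀ t, ‖iteratedDeriv k γ t - iteratedDeriv k (circle n m) t‖ < ε

/-- `μ(n)`: the least `m ≥ 1` such that every `C^∞`-neighbourhood of `c_m` contains a nondegenerate
closed curve in `ℝⁿ`. -/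
noncomputable def mu (n : ℕ) : ℕ := sInf {m : ℕ | 1 ≤ m ∧ Perturbable n m}

/-- The Frenet frame `e_1(t), …, e_n(t)`: Gram-Schmidt orthonormalisation of the derivatives
`γ'(t), …, γ⁽ⁿ⁾(t)`. -/
noncomputable def frame {n : ℕ} (γ : ℝ → EuclideanSpace ℝ (Fin n)) (i : Fin n) (t : ℝ) :
    EuclideanSpace ℝ (Fin n) :=
  InnerProductSpace.gramSchmidtNormed ℝ (fun j : Fin n => iteratedDeriv (j + 1) γ t) i

/-- The curvature `κ_i`, `1 ≤ i ≤ n - 1` (here `i` is counted from `0`): the component on `e_{i+1}` of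
the derivative of `e_i` with respect to arc length. -/
noncomputable def curvature {n : ℕ} (γ : ℝ → EuclideanSpace ℝ (Fin n)) (i : Fin (n - 1)) (t : ℝ) : ℝ :=
  inner ℝ (deriv (frame γ ⟨i, by omega⟩) t) (frame γ ⟨i + 1, by omega⟩ t) / ‖deriv γ t‖

/-- The length `L(E) = ∫ (κ_1² + ⋯ + κ_{n-1}²)^{1/2} ds` of the Frenet frame, `ds = |γ'(t)| dt`. -/
noncomputable def frameLength {n : ℕ} (γ : ℝ → EuclideanSpace ℝ (Fin n)) : ℝ :=
  ∫ t in (0 : ℝ)..(2 * Real.pi), Real.sqrt (∑ i : Fin (n - 1), curvature γ i t ^ 2) * ‖deriv γ t‖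

end Pool.Agent.U123.Curves
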