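import Pool.Agent.U123.CurveDefs

/-!
# Nondegenerate perturbations of the simply traversed circle in dimension at least four
-/

set_option autoImplicit false

open scoped ContDiff

namespace Pool.Agent.U123.Curves

/-- trigonometric polynomials -/
def TP : Submodule ℝ (ℝ → ℝ) :=
  Submodule.span ℝ {h | ∃ k : ℕ, h = (fun t => Real.cos (k * t)) ∨ h = fun t => Real.sin (k * t)}

theorem cos_mem (k : ℕ) : (fun t : ℝ => Real.cos (k * t)) ∈ TP :=
  Submodule.subset_span ⟨k, Or.inl rfl⟩

theorem sin_mem (k : ℕ) : (fun t : ℝ => Real.sin (k * t)) ∈ TP :=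
  Submodule.subset_span ⟨k, Or.inr rfl⟩

theorem TP_contDiff {g : ℝ → ℝ} (hg : g ∈ TP) : ContDiff ℝ ∞ g := by
  induction hg using Submodule.span_induction with
  | mem x hx =>
    obtain ⟨k, rfl | rfl⟩ := hx
    · exact Real.contDiff_cos.comp (contDiff_const.mul contDiff_id)
    · exact Real.contDiff_sin.comp (contDiff_const.mul contDiff_id)
  | zero => exact contDiff_const
  | add x y _ _ hx hy => exact hx.add hy
  | smul a x _ hx => exact contDiff_const.smul hx

theorem TP_periodic {g : ℝ → ℝ} (hg : g ∈ TP) : Function.Periodic g (2 * Real.pi) := by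
  induction hg using Submodule.span_induction with
  | mem x hx =>
    obtain ⟨k, rfl | rfl⟩ := hx
    · intro t
      have : (k : ℝ) * (t + 2 * Real.pi) = k * t + k * (2 * Real.pi) := by ring
      simp only [this]
      exact Real.cos_add_nat_mul_two_pi _ _
    · intro t
      have : (k : ℝ) * (t + 2 * Real.pi) = k * t + k * (2 * Real.pi) := by ring
      simp only [this]
      exact Real.sin_add_nat_mul_two_pi _ _
  | zero => intro t; rfl
  | add x y _ _ hx hy => exact hx.add hy
  | smul a x _ hx => exact hx.smul a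

theorem one_sub_ne (k : ℕ) : (1 : ℝ) - (2 * (k : ℝ)) ^ 2 ≠ 0 := by
  have h : (1 : ℤ) - (2 * (k : ℤ)) ^ 2 ≠ 0 := by
    intro h
    have : (2 * (k : ℤ)) ^ 2 = 1 := by linarith
    have h4 : (4 : ℤ) ∣ 1 := ⟨(k : ℤ) ^ 2, by linarith⟩
    norm_num at h4
  exact_mod_cast h

/-- The resonance-free equation `f'' + f = g(2t)`. -/
theorem exists_solution {g : ℝ → ℝ} (hg : g ∈ TP) :
    ∃ f ∈ TP, ∀ t, deriv (deriv f) t + f t = g (2 * t) := by
  induction hg using Submodule.span_induction with
  | mem x hx =>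
    obtain ⟨k, rfl | rfl⟩ := hx
    · refine ⟨(1 - (2 * (k : ℝ)) ^ 2)⁻¹ • (fun t => Real.cos (((2 * k : ℕ) : ℝ) * t)),
        Submodule.smul_mem _ _ (cos_mem _), fun t => ?_⟩
      have h1 : deriv ((1 - (2 * (k : ℝ)) ^ 2)⁻¹ • (fun t => Real.cos (((2 * k : ℕ) : ℝ) * t))) =
          fun t => (1 - (2 * (k : ℝ)) ^ 2)⁻¹ * (-Real.sin (((2 * k : ℕ) : ℝ) * t) *
            ((2 * k : ℕ) : ℝ)) := by
        funext t
        apply HasDerivAt.deriv
        have h0 : HasDerivAt (fun t : ℝ => ((2 * k : ℕ) : ℝ) * t) ((2 * k : ℕ) : ℝ) t := by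
          simpa using (hasDerivAt_id t).const_mul ((2 * k : ℕ) : ℝ)
        exact (h0.cos).const_mul _
      have h2 : deriv (fun t => (1 - (2 * (k : ℝ)) ^ 2)⁻¹ * (-Real.sin (((2 * k : ℕ) : ℝ) * t) *
            ((2 * k : ℕ) : ℝ))) t = (1 - (2 * (k : ℝ)) ^ 2)⁻¹ *
            (-(Real.cos (((2 * k : ℕ) : ℝ) * t) * ((2 * k : ℕ) : ℝ)) * ((2 * k : ℕ) : ℝ)) := by
        apply HasDerivAt.deriv
        have h0 : HasDerivAt (fun t : ℝ => ((2 * k : ℕ) : ℝ) * t) ((2 * k : ℕ) : ℝ) t := by
          simpa using (hasDerivAt_id t).const_mul ((2 * k : ℕ) : ℝ)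
        exact ((h0.sin).neg.mul_const _).const_mul _
      rw [h1, h2]
      simp only [Pi.smul_apply, smul_eq_mul]
      have hne := inv_mul_cancel₀ (one_sub_ne k)
      have harg : (k : ℝ) * (2 * t) = ((2 * k : ℕ) : ℝ) * t := by push_cast; ring
      rw [harg]
      push_cast
      linear_combination Real.cos (2 * (k : ℝ) * t) * hne
    · refine ⟨(1 - (2 * (k : ℝ)) ^ 2)⁻¹ • (fun t => Real.sin (((2 * k : ℕ) : ℝ) * t)),
        Submodule.smul_mem _ _ (sin_mem _), fun t => ?_⟩
      have h1 : deriv ((1 - (2 * (k : ℝ)) ^ 2)⁻¹ • (fun t => Real.sin (((2 * k : ℕ) : ℝ) * t))) =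
          fun t => (1 - (2 * (k : ℝ)) ^ 2)⁻¹ * (Real.cos (((2 * k : ℕ) : ℝ) * t) *
            ((2 * k : ℕ) : ℝ)) := by
        funext t
        apply HasDerivAt.deriv
        have h0 : HasDerivAt (fun t : ℝ => ((2 * k : ℕ) : ℝ) * t) ((2 * k : ℕ) : ℝ) t := by
          simpa using (hasDerivAt_id t).const_mul ((2 * k : ℕ) : ℝ)
        exact (h0.sin).const_mul _
      have h2 : deriv (fun t => (1 - (2 * (k : ℝ)) ^ 2)⁻¹ * (Real.cos (((2 * k : ℕ) : ℝ) * t) *
            ((2 * k : ℕ) : ℝ))) t = (1 - (2 * (k : ℝ)) ^ 2)⁻¹ *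
            (-Real.sin (((2 * k : ℕ) : ℝ) * t) * ((2 * k : ℕ) : ℝ) * ((2 * k : ℕ) : ℝ)) := by
        apply HasDerivAt.deriv
        have h0 : HasDerivAt (fun t : ℝ => ((2 * k : ℕ) : ℝ) * t) ((2 * k : ℕ) : ℝ) t := by
          simpa using (hasDerivAt_id t).const_mul ((2 * k : ℕ) : ℝ)
        exact ((h0.cos).mul_const _).const_mul _
      rw [h1, h2]
      simp only [Pi.smul_apply, smul_eq_mul]
      have hne := inv_mul_cancel₀ (one_sub_ne k)
      have harg : (k : ℝ) * (2 * t) = ((2 * k : ℕ) : ℝ) * t := by push_cast; ring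
      rw [harg]
      push_cast
      linear_combination Real.sin (2 * (k : ℝ) * t) * hne
  | zero => exact ⟨0, Submodule.zero_mem _, fun t => by simp⟩
  | add x y _ _ hx hy =>
    obtain ⟨f, hf, h1⟩ := hx
    obtain ⟨f', hf', h1'⟩ := hy
    refine ⟨f + f', Submodule.add_mem _ hf hf', fun t => ?_⟩
    have c1 := TP_contDiff hf
    have c2 := TP_contDiff hf'
    have d1 : Differentiable ℝ f := c1.differentiable (by simp)
    have d2 : Differentiable ℝ f' := c2.differentiable (by simp)
    have d1' : Differentiable ℝ (deriv f) :=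
      (contDiff_infty_iff_deriv.1 c1).2.differentiable (by simp)
    have d2' : Differentiable ℝ (deriv f') :=
      (contDiff_infty_iff_deriv.1 c2).2.differentiable (by simp)
    have e1 : deriv (f + f') = deriv f + deriv f' := by
      funext s; exact deriv_add (d1 s) (d2 s)
    rw [e1, deriv_add (d1' t) (d2' t)]
    simp only [Pi.add_apply]
    rw [← h1, ← h1']
    ring
  | smul a x _ hx =>
    obtain ⟨f, hf, h1⟩ := hx
    refine ⟨a • f, Submodule.smul_mem _ _ hf, fun t => ?_⟩
    have c1 := TP_contDiff hf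
    have d1 : Differentiable ℝ f := c1.differentiable (by simp)
    have d1' : Differentiable ℝ (deriv f) :=
      (contDiff_infty_iff_deriv.1 c1).2.differentiable (by simp)
    have e1 : deriv (a • f) = a • deriv f := by
      funext s; exact deriv_const_smul a (d1 s)
    rw [e1, deriv_const_smul a (d1' t)]
    simp only [Pi.smul_apply, smul_eq_mul]
    rw [← h1]
    ring

/-- covector form of nondegeneracy, in coordinates -/
def ND (n : ℕ) (g : Fin n → ℝ → ℝ) : Prop :=
  ∀ (t : ℝ) (w : Fin n → ℝ),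
    (∀ j : Fin n, ∑ i, w i * iteratedDeriv (j + 1) (g i) t = 0) → w = 0

theorem TP_deriv_contDiff {f : ℝ → ℝ} (hf : f ∈ TP) (k : ℕ) :
    ContDiff ℝ ∞ (iteratedDeriv k f) := by
  induction k with
  | zero => rw [iteratedDeriv_zero]; exact TP_contDiff hf
  | succ k ih =>
    rw [iteratedDeriv_succ]
    exact (contDiff_infty_iff_deriv.1 ih).2

theorem iter_cos (k : ℕ) (t : ℝ) :
    iteratedDeriv (k + 2) Real.cos t + iteratedDeriv k Real.cos t = 0 := by
  have h : deriv (deriv Real.cos) = -Real.cos := by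
    funext s
    rw [Real.deriv_cos', deriv.fun_neg]
    simp
  rw [iteratedDeriv_succ', iteratedDeriv_succ', h, iteratedDeriv_neg]
  simp

theorem iter_sin (k : ℕ) (t : ℝ) :
    iteratedDeriv (k + 2) Real.sin t + iteratedDeriv k Real.sin t = 0 := by
  have h : deriv (deriv Real.sin) = -Real.sin := by
    funext s
    rw [Real.deriv_sin, Real.deriv_cos]
    rfl
  rw [iteratedDeriv_succ', iteratedDeriv_succ', h, iteratedDeriv_neg]
  simp

theorem iter_sol {f g : ℝ → ℝ} (hf : f ∈ TP) (hg : g ∈ TP)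
    (h : ∀ t, deriv (deriv f) t + f t = g (2 * t)) (k : ℕ) (t : ℝ) :
    iteratedDeriv (k + 2) f t + iteratedDeriv k f t = 2 ^ k * iteratedDeriv k g (2 * t) := by
  have h1 : deriv (deriv f) + f = fun t => g (2 * t) := by
    funext s; exact h s
  have h2 := congrFun (iteratedDeriv_comp_const_smul (n := k)
    ((TP_contDiff hg).of_le (by exact_mod_cast le_top)) (2 : ℝ)) t
  have h3 : ContDiff ℝ ∞ (deriv (deriv f)) := by
    have := TP_deriv_contDiff hf 2
    rwa [iteratedDeriv_succ, iteratedDeriv_succ, iteratedDeriv_zero] at this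
  rw [iteratedDeriv_succ', iteratedDeriv_succ', ← iteratedDeriv_add (n := k)
    (h3.contDiffAt.of_le (by exact_mod_cast le_top))
    ((TP_contDiff hf).contDiffAt.of_le (by exact_mod_cast le_top)), h1, h2]
  rfl

theorem ND_step {n : ℕ} {g f : Fin n → ℝ → ℝ} (hg : ∀ i, g i ∈ TP) (hf : ∀ i, f i ∈ TP)
    (h : ∀ i t, deriv (deriv (f i)) t + f i t = g i (2 * t)) (hND : ND n g) {ε : ℝ} (hε : ε ≠ 0) :
    ND (n + 2) (Fin.cons Real.cos (Fin.cons Real.sin fun i => ε • f i)) := by
  intro t w hw
  have hE : ∀ j : ℕ, j < n + 2 → w 0 * iteratedDeriv (j + 1) Real.cos t +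
      (w 1 * iteratedDeriv (j + 1) Real.sin t +
      ∑ i : Fin n, w i.succ.succ * (ε * iteratedDeriv (j + 1) (f i) t)) = 0 := by
    intro j hj
    have := hw ⟨j, hj⟩
    rw [Fin.sum_univ_succ, Fin.sum_univ_succ] at this
    simp only [Fin.cons_zero, Fin.cons_succ] at this
    have h3 : ∀ i, iteratedDeriv (j + 1) (ε • f i) t = ε * iteratedDeriv (j + 1) (f i) t := by
      intro i
      rw [iteratedDeriv_const_smul (n := j + 1) (c := ε)
        ((TP_contDiff (hf i)).contDiffAt.of_le (by exact_mod_cast le_top))]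
      rfl
    simp only [h3] at this
    exact this
  have hz : (fun i : Fin n => w i.succ.succ) = 0 := by
    apply hND (2 * t)
    intro j
    have e1 := hE j (by omega)
    have e2 := hE (j + 2) (by omega)
    have c1 := iter_cos (j + 1) t
    have c2 := iter_sin (j + 1) t
    have key : ∑ i : Fin n, w i.succ.succ * (ε * (iteratedDeriv (j + 1 + 2) (f i) t +
        iteratedDeriv (j + 1) (f i) t)) = 0 := by
      have hsum : ∑ i : Fin n, w i.succ.succ * (ε * (iteratedDeriv (j + 1 + 2) (f i) t +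
        iteratedDeriv (j + 1) (f i) t)) =
        ∑ i : Fin n, w i.succ.succ * (ε * iteratedDeriv (j + 2 + 1) (f i) t) +
        ∑ i : Fin n, w i.succ.succ * (ε * iteratedDeriv (j + 1) (f i) t) := by
        rw [← Finset.sum_add_distrib]
        refine Finset.sum_congr rfl fun i _ => ?_
        have : (j : ℕ) + 1 + 2 = j + 2 + 1 := by ring
        rw [this]
        ring
      rw [hsum]
      have h5 : (j : ℕ) + 1 + 2 = j + 2 + 1 := by ring
      rw [h5] at c1 c2
      linear_combination e1 + e2 - w 0 * c1 - w 1 * c2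
    have key2 : ε * 2 ^ ((j : ℕ) + 1) *
        ∑ i : Fin n, w i.succ.succ * iteratedDeriv (j + 1) (g i) (2 * t) = 0 := by
      rw [← key, Finset.mul_sum]
      refine Finset.sum_congr rfl fun i _ => ?_
      rw [iter_sol (hf i) (hg i) (h i)]
      ring
    have hne : ε * 2 ^ ((j : ℕ) + 1) ≠ 0 := by positivity
    exact (mul_eq_zero.1 key2).resolve_left hne
  have hz' : ∀ i : Fin n, w i.succ.succ = 0 := fun i => congrFun hz i
  have e0 := hE 0 (by omega)
  have e1 := hE 1 (by omega)
  simp only [hz', zero_mul, Finset.sum_const_zero, add_zero, zero_add, iteratedDeriv_one] at e0 e1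
  rw [Real.deriv_cos, Real.deriv_sin] at e0
  have d1 : iteratedDeriv (1 + 1) Real.cos t = -Real.cos t := by
    have := iter_cos 0 t
    rw [iteratedDeriv_zero] at this
    linarith
  have d2 : iteratedDeriv (1 + 1) Real.sin t = -Real.sin t := by
    have := iter_sin 0 t
    rw [iteratedDeriv_zero] at this
    linarith
  rw [d1, d2] at e1
  have hsc := Real.sin_sq_add_cos_sq t
  have w0 : w 0 = 0 := by linear_combination (-w 0) * hsc - Real.sin t * e0 - Real.cos t * e1
  have w1 : w 1 = 0 := by linear_combination (-w 1) * hsc + Real.cos t * e0 - Real.sin t * e1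
  funext i
  refine Fin.cases w0 (fun i => ?_) i
  refine Fin.cases w1 (fun i => ?_) i
  exact hz' i

theorem cos_mem' : Real.cos ∈ TP := by
  have := cos_mem 1
  simpa using this

theorem sin_mem' : Real.sin ∈ TP := by
  have := sin_mem 1
  simpa using this

/-- the circle -/
theorem ND_two : ND 2 ![Real.cos, Real.sin] := by
  intro t w hw
  have e0 := hw 0
  have e1 := hw 1
  rw [Fin.sum_univ_two] at e0 e1
  simp only [Fin.val_zero, Fin.val_one, zero_add, Matrix.cons_val_zero, Matrix.cons_val_one,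
    iteratedDeriv_one] at e0 e1
  rw [Real.deriv_cos, Real.deriv_sin] at e0
  have d1 : iteratedDeriv (1 + 1) Real.cos t = -Real.cos t := by
    have := iter_cos 0 t
    rw [iteratedDeriv_zero] at this
    linarith
  have d2 : iteratedDeriv (1 + 1) Real.sin t = -Real.sin t := by
    have := iter_sin 0 t
    rw [iteratedDeriv_zero] at this
    linarith
  rw [d1, d2] at e1
  have hsc := Real.sin_sq_add_cos_sq t
  have w0 : w 0 = 0 := by linear_combination (-w 0) * hsc - Real.sin t * e0 - Real.cos t * e1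
  have w1 : w 1 = 0 := by linear_combination (-w 1) * hsc + Real.cos t * e0 - Real.sin t * e1
  funext i
  fin_cases i
  · exact w0
  · exact w1

theorem hasDerivAt_cos_mul (k t : ℝ) :
    HasDerivAt (fun t => Real.cos (k * t)) (-Real.sin (k * t) * k) t := by
  have h0 : HasDerivAt (fun t : ℝ => k * t) k t := by
    simpa using (hasDerivAt_id t).const_mul k
  exact h0.cos

theorem hasDerivAt_sin_mul (k t : ℝ) :
    HasDerivAt (fun t => Real.sin (k * t)) (Real.cos (k * t) * k) t := by
  have h0 : HasDerivAt (fun t : ℝ => k * t) k t := by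
    simpa using (hasDerivAt_id t).const_mul k
  exact h0.sin

/-- the three coordinates of a closed space curve without flattening points -/
noncomputable def x3 (t : ℝ) : ℝ := Real.sin (1 * t) + Real.sin (2 * t) / 2
noncomputable def y3 (t : ℝ) : ℝ := -Real.cos (1 * t) + Real.cos (2 * t) / 2
noncomputable def z3 (t : ℝ) : ℝ := Real.sin (3 * t) / 3

theorem x3_mem : x3 ∈ TP := by
  have h : x3 = (fun t : ℝ => Real.sin (((1 : ℕ) : ℝ) * t)) +
      (1 / 2 : ℝ) • fun t : ℝ => Real.sin (((2 : ℕ) : ℝ) * t) := by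
    funext t
    simp only [x3, Pi.add_apply, Pi.smul_apply, smul_eq_mul]
    push_cast
    ring
  rw [h]
  exact Submodule.add_mem _ (sin_mem 1) (Submodule.smul_mem _ _ (sin_mem 2))

theorem y3_mem : y3 ∈ TP := by
  have h : y3 = (-1 : ℝ) • (fun t : ℝ => Real.cos (((1 : ℕ) : ℝ) * t)) +
      (1 / 2 : ℝ) • fun t : ℝ => Real.cos (((2 : ℕ) : ℝ) * t) := by
    funext t
    simp only [y3, Pi.add_apply, Pi.smul_apply, smul_eq_mul]
    push_cast
    ring
  rw [h]
  exact Submodule.add_mem _ (Submodule.smul_mem _ _ (cos_mem 1))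
    (Submodule.smul_mem _ _ (cos_mem 2))

theorem z3_mem : z3 ∈ TP := by
  have h : z3 = (1 / 3 : ℝ) • fun t : ℝ => Real.sin (((3 : ℕ) : ℝ) * t) := by
    funext t
    simp only [z3, Pi.smul_apply, smul_eq_mul]
    push_cast
    ring
  rw [h]
  exact Submodule.smul_mem _ _ (sin_mem 3)

theorem x3_deriv : deriv x3 = fun t => Real.cos (1 * t) + Real.cos (2 * t) := by
  funext t
  have h := (hasDerivAt_sin_mul 1 t).add ((hasDerivAt_sin_mul 2 t).div_const 2)
  have h' : HasDerivAt x3 _ t := h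
  rw [h'.deriv]
  ring

theorem x3_deriv2 : deriv (deriv x3) = fun t => -Real.sin (1 * t) - 2 * Real.sin (2 * t) := by
  rw [x3_deriv]
  funext t
  have h := (hasDerivAt_cos_mul 1 t).add (hasDerivAt_cos_mul 2 t)
  have h' : HasDerivAt (fun t => Real.cos (1 * t) + Real.cos (2 * t)) _ t := h
  rw [h'.deriv]
  ring

theorem x3_deriv3 :
    deriv (deriv (deriv x3)) = fun t => -Real.cos (1 * t) - 4 * Real.cos (2 * t) := by
  rw [x3_deriv2]
  funext t
  have h := (hasDerivAt_sin_mul 1 t).neg.sub ((hasDerivAt_sin_mul 2 t).const_mul 2)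
  have h' : HasDerivAt (fun t => -Real.sin (1 * t) - 2 * Real.sin (2 * t)) _ t := h
  rw [h'.deriv]
  ring

theorem y3_deriv : deriv y3 = fun t => Real.sin (1 * t) - Real.sin (2 * t) := by
  funext t
  have h := (hasDerivAt_cos_mul 1 t).neg.add ((hasDerivAt_cos_mul 2 t).div_const 2)
  have h' : HasDerivAt y3 _ t := h
  rw [h'.deriv]
  ring

theorem y3_deriv2 : deriv (deriv y3) = fun t => Real.cos (1 * t) - 2 * Real.cos (2 * t) := by
  rw [y3_deriv]
  funext t
  have h := (hasDerivAt_sin_mul 1 t).sub (hasDerivAt_sin_mul 2 t)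
  have h' : HasDerivAt (fun t => Real.sin (1 * t) - Real.sin (2 * t)) _ t := h
  rw [h'.deriv]
  ring

theorem y3_deriv3 :
    deriv (deriv (deriv y3)) = fun t => -Real.sin (1 * t) + 4 * Real.sin (2 * t) := by
  rw [y3_deriv2]
  funext t
  have h := (hasDerivAt_cos_mul 1 t).sub ((hasDerivAt_cos_mul 2 t).const_mul 2)
  have h' : HasDerivAt (fun t => Real.cos (1 * t) - 2 * Real.cos (2 * t)) _ t := h
  rw [h'.deriv]
  ring

theorem z3_deriv : deriv z3 = fun t => Real.cos (3 * t) := by
  funext t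
  have h := (hasDerivAt_sin_mul 3 t).div_const 3
  have h' : HasDerivAt z3 _ t := h
  rw [h'.deriv]
  ring

theorem z3_deriv2 : deriv (deriv z3) = fun t => -3 * Real.sin (3 * t) := by
  rw [z3_deriv]
  funext t
  rw [(hasDerivAt_cos_mul 3 t).deriv]
  ring

theorem z3_deriv3 : deriv (deriv (deriv z3)) = fun t => -9 * Real.cos (3 * t) := by
  rw [z3_deriv2]
  funext t
  have h := (hasDerivAt_sin_mul 3 t).const_mul (-3)
  have h' : HasDerivAt (fun t => -3 * Real.sin (3 * t)) _ t := h
  rw [h'.deriv]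
  ring

theorem cramer {a0 a1 a2 b0 b1 b2 d0 d1 d2 w0 w1 w2 : ℝ}
    (e0 : w0 * a0 + w1 * b0 + w2 * d0 = 0) (e1 : w0 * a1 + w1 * b1 + w2 * d1 = 0)
    (e2 : w0 * a2 + w1 * b2 + w2 * d2 = 0)
    (hW : d0 * (a1 * b2 - a2 * b1) - d1 * (a0 * b2 - a2 * b0) + d2 * (a0 * b1 - a1 * b0) ≠ 0) :
    w0 = 0 ∧ w1 = 0 ∧ w2 = 0 := by
  refine ⟨?_, ?_, ?_⟩
  · refine (mul_eq_zero.1 ?_).resolve_right hW
    linear_combination (b1 * d2 - b2 * d1) * e0 - (b0 * d2 - b2 * d0) * e1 +
      (b0 * d1 - b1 * d0) * e2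
  · refine (mul_eq_zero.1 ?_).resolve_right hW
    linear_combination -(a1 * d2 - a2 * d1) * e0 + (a0 * d2 - a2 * d0) * e1 -
      (a0 * d1 - a1 * d0) * e2
  · refine (mul_eq_zero.1 ?_).resolve_right hW
    linear_combination (a1 * b2 - a2 * b1) * e0 - (a0 * b2 - a2 * b0) * e1 +
      (a0 * b1 - a1 * b0) * e2

theorem ND_three : ND 3 ![x3, y3, z3] := by
  intro t w hw
  have e0 := hw 0
  have e1 := hw 1
  have e2 := hw 2
  rw [Fin.sum_univ_three] at e0 e1 e2
  have h2 : ((2 : Fin 3) : ℕ) = 2 := rfl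
  have i1 : ∀ f : ℝ → ℝ, iteratedDeriv (0 + 1) f t = deriv f t := fun f => by
    rw [iteratedDeriv_succ, iteratedDeriv_zero]
  have i2 : ∀ f : ℝ → ℝ, iteratedDeriv (1 + 1) f t = deriv (deriv f) t := fun f => by
    rw [iteratedDeriv_succ, iteratedDeriv_succ', iteratedDeriv_zero]
  have i3 : ∀ f : ℝ → ℝ, iteratedDeriv (2 + 1) f t = deriv (deriv (deriv f)) t := fun f => by
    rw [iteratedDeriv_succ, iteratedDeriv_succ', iteratedDeriv_succ', iteratedDeriv_zero]
  simp only [Fin.val_zero, Fin.val_one, h2, Matrix.cons_val_zero, Matrix.cons_val_one,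
    Matrix.cons_val_two, Matrix.tail_cons, Matrix.head_cons, i1, i2, i3]
    at e0 e1 e2
  rw [x3_deriv, y3_deriv, z3_deriv] at e0
  rw [x3_deriv2, y3_deriv2, z3_deriv2] at e1
  rw [x3_deriv3, y3_deriv3, z3_deriv3] at e2
  simp only [one_mul] at e0 e1 e2
  have hsc := Real.sin_sq_add_cos_sq t
  have hsc2 := Real.sin_sq_add_cos_sq (2 * t)
  have hsc3 := Real.sin_sq_add_cos_sq (3 * t)
  have hC : Real.cos (3 * t) = Real.cos t * Real.cos (2 * t) - Real.sin t * Real.sin (2 * t) := by
    rw [← Real.cos_add]; ring_nf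
  have hS : Real.sin (3 * t) = Real.sin t * Real.cos (2 * t) + Real.cos t * Real.sin (2 * t) := by
    rw [← Real.sin_add]; ring_nf
  obtain ⟨w0, w1, w2⟩ := cramer e0 e1 e2 (by
    have m1 : (Real.cos t + Real.cos (2 * t)) * (Real.cos t - 2 * Real.cos (2 * t)) -
        (-Real.sin t - 2 * Real.sin (2 * t)) * (Real.sin t - Real.sin (2 * t)) =
        -1 - Real.cos (3 * t) := by
      linear_combination hsc - 2 * hsc2 + hC
    have m2 : (-Real.sin t - 2 * Real.sin (2 * t)) * (-Real.sin t + 4 * Real.sin (2 * t)) -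
        (-Real.cos t - 4 * Real.cos (2 * t)) * (Real.cos t - 2 * Real.cos (2 * t)) =
        -7 + 2 * Real.cos (3 * t) := by
      linear_combination hsc - 8 * hsc2 - 2 * hC
    have m3 : (Real.cos t + Real.cos (2 * t)) * (-Real.sin t + 4 * Real.sin (2 * t)) -
        (-Real.cos t - 4 * Real.cos (2 * t)) * (Real.sin t - Real.sin (2 * t)) =
        3 * Real.sin (3 * t) := by
      linear_combination -3 * hS
    rw [m1, m2, m3]
    have : Real.cos (3 * t) * (-7 + 2 * Real.cos (3 * t)) -
        -3 * Real.sin (3 * t) * (3 * Real.sin (3 * t)) +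
        -9 * Real.cos (3 * t) * (-1 - Real.cos (3 * t)) =
        2 * (Real.cos (3 * t) + 1 / 2) ^ 2 + 17 / 2 := by
      linear_combination 9 * hsc3
    rw [this]
    positivity)
  funext i
  fin_cases i
  · exact w0
  · exact w1
  · exact w2

/-- In every dimension at least two there are closed nondegenerate curves. -/
theorem exists_ND (n : ℕ) : ∃ g : Fin (n + 2) → ℝ → ℝ, (∀ i, g i ∈ TP) ∧ ND (n + 2) g := by
  induction n using Nat.twoStepInduction with
  | zero =>
    refine ⟨![Real.cos, Real.sin], fun i => ?_, ND_two⟩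
    fin_cases i
    · exact cos_mem'
    · exact sin_mem'
  | one =>
    refine ⟨![x3, y3, z3], fun i => ?_, ND_three⟩
    fin_cases i
    · exact x3_mem
    · exact y3_mem
    · exact z3_mem
  | more n ih _ =>
    obtain ⟨g, hg, hND⟩ := ih
    choose f hf h using fun i => exists_solution (hg i)
    refine ⟨_, fun i => ?_, ND_step hg hf h hND one_ne_zero⟩
    refine Fin.cases cos_mem' (fun i => ?_) i
    refine Fin.cases sin_mem' (fun i => ?_) i
    exact Submodule.smul_mem _ _ (hf i)

/-- the curve with the coordinates `G i` -/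
noncomputable def crv {n : ℕ} (G : Fin n → ℝ → ℝ) (t : ℝ) : EuclideanSpace ℝ (Fin n) :=
  WithLp.toLp 2 fun i => G i t

theorem crv_contDiff {n : ℕ} {G : Fin n → ℝ → ℝ} (hG : ∀ i, ContDiff ℝ ∞ (G i)) :
    ContDiff ℝ ∞ (crv G) := by
  rw [contDiff_euclidean]
  intro i
  exact hG i

theorem iteratedDeriv_crv {n : ℕ} {G : Fin n → ℝ → ℝ} (hG : ∀ i, ContDiff ℝ ∞ (G i)) (k : ℕ) :
    iteratedDeriv k (crv G) = crv fun i => iteratedDeriv k (G i) := by
  induction k with
  | zero => simp only [iteratedDeriv_zero]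
  | succ k ih =>
    rw [iteratedDeriv_succ, ih]
    funext t
    have h1 : HasDerivAt (fun t => fun i : Fin n => iteratedDeriv k (G i) t)
        (fun i => iteratedDeriv (k + 1) (G i) t) t := by
      rw [hasDerivAt_pi]
      intro i
      rw [iteratedDeriv_succ]
      exact (((hG i).differentiable_iteratedDeriv k (by exact_mod_cast ENat.natCast_lt_top k)) t).hasDerivAt
    have h2 := ((EuclideanSpace.equiv (Fin n) ℝ).symm : (Fin n → ℝ) →L[ℝ] EuclideanSpace ℝ
      (Fin n)).hasFDerivAt (x := fun i : Fin n => iteratedDeriv k (G i) t)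
    exact (h2.comp_hasDerivAt t h1).deriv

theorem nondegenerate_crv {n : ℕ} {G : Fin n → ℝ → ℝ} (hG : ∀ i, ContDiff ℝ ∞ (G i))
    (h : ND n G) : Nondegenerate (crv G) := by
  intro t
  let M : Matrix (Fin n) (Fin n) ℝ := Matrix.of fun j i => iteratedDeriv (j + 1) (G i) t
  have hM : IsUnit M := by
    rw [← Matrix.mulVec_injective_iff_isUnit]
    intro v w hvw
    have : v - w = 0 := by
      apply h t
      intro j
      have h1 := congrFun hvw j
      simp only [Matrix.mulVec, dotProduct, M, Matrix.of_apply] at h1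
      have h2 : ∑ i, (v - w) i * iteratedDeriv (j + 1) (G i) t =
          ∑ i, iteratedDeriv (j + 1) (G i) t * v i - ∑ i, iteratedDeriv (j + 1) (G i) t * w i := by
        rw [← Finset.sum_sub_distrib]
        refine Finset.sum_congr rfl fun i _ => ?_
        simp only [Pi.sub_apply]
        ring
      rw [h2, h1, sub_self]
    exact sub_eq_zero.1 this
  have h2 := Matrix.linearIndependent_rows_iff_isUnit.2 hM
  have h3 := h2.map' (EuclideanSpace.equiv (Fin n) ℝ).symm.toLinearMap
    (LinearMap.ker_eq_bot.2 (EuclideanSpace.equiv (Fin n) ℝ).symm.injective)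
  have h4 : (fun i : Fin n => iteratedDeriv (i + 1) (crv G) t) =
      (EuclideanSpace.equiv (Fin n) ℝ).symm.toLinearMap ∘ M.row := by
    funext j
    rw [iteratedDeriv_crv hG]
    rfl
  rw [h4]
  exact h3

/-- every neighbourhood of the simply traversed circle in dimension at least four contains
nondegenerate curves -/
theorem perturbable_one (n : ℕ) (hn : 4 ≤ n) : Perturbable n 1 := by
  obtain ⟨k, rfl⟩ : ∃ k, n = k + 2 + 2 := ⟨n - 4, by omega⟩
  intro K ε hε
  obtain ⟨g, hg, hND⟩ := exists_ND k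
  choose f hf h using fun i => exists_solution (hg i)
  have hf' : ∀ i, ContDiff ℝ ∞ (f i) := fun i => TP_contDiff (hf i)
  let D : Fin (k + 2 + 2) → ℝ → ℝ := Fin.cons 0 (Fin.cons 0 f)
  have hD : ∀ i, ContDiff ℝ ∞ (D i) := by
    intro i
    refine Fin.cases contDiff_const (fun i => ?_) i
    refine Fin.cases contDiff_const (fun i => ?_) i
    exact hf' i
  have hDp : Function.Periodic (crv D) (2 * Real.pi) := by
    intro t
    have : ∀ i, D i (t + 2 * Real.pi) = D i t := by
      intro i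
      refine Fin.cases rfl (fun i => ?_) i
      refine Fin.cases rfl (fun i => ?_) i
      exact TP_periodic (hf i) t
    unfold crv
    simp only [this]
  -- uniform bounds for the derivatives
  have hb : ∀ j, ∃ C, ∀ t, ‖iteratedDeriv j (crv D) t‖ ≤ C := by
    intro j
    have hp : Function.Periodic (iteratedDeriv j (crv D)) (2 * Real.pi) := by
      intro t
      have h1 := congrFun (iteratedDeriv_comp_add_const (n := j) (f := crv D) (2 * Real.pi)) t
      have h2 : (fun z => crv D (z + 2 * Real.pi)) = crv D := funext hDp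
      rw [h2] at h1
      exact h1.symm
    have hc : Continuous (iteratedDeriv j (crv D)) :=
      (crv_contDiff hD).continuous_iteratedDeriv j (by exact_mod_cast le_top)
    obtain ⟨C, hC⟩ := (hp.isBounded_of_continuous (by positivity) hc).exists_norm_le
    exact ⟨C, fun t => hC _ ⟨t, rfl⟩⟩
  choose C hC using hb
  obtain ⟨η, hη, hηC⟩ : ∃ η > 0, ∀ j ≤ K, η * C j < ε := by
    refine ⟨ε / (1 + ∑ j ∈ Finset.range (K + 1), |C j|), by positivity, fun j hj => ?_⟩
    have h1 : C j ≤ ∑ j ∈ Finset.range (K + 1), |C j| :=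
      (le_abs_self _).trans (Finset.single_le_sum (f := fun j => |C j|)
        (fun _ _ => abs_nonneg _) (Finset.mem_range.2 (by omega)))
    have h2 : 0 < 1 + ∑ j ∈ Finset.range (K + 1), |C j| := by positivity
    rw [div_mul_eq_mul_div, div_lt_iff₀ h2]
    nlinarith
  let G : Fin (k + 2 + 2) → ℝ → ℝ := Fin.cons Real.cos (Fin.cons Real.sin fun i => η • f i)
  have hG : ∀ i, ContDiff ℝ ∞ (G i) := by
    intro i
    refine Fin.cases Real.contDiff_cos (fun i => ?_) i
    refine Fin.cases Real.contDiff_sin (fun i => ?_) i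
    exact contDiff_const.smul (hf' i)
  have hGD : crv G = fun t => circle (k + 2 + 2) 1 t + η • crv D t := by
    funext t
    ext i
    simp only [crv, circle, Nat.cast_one, one_mul, PiLp.add_apply, PiLp.smul_apply, smul_eq_mul]
    refine Fin.cases ?_ (fun i => ?_) i
    · simp [G, D]
    refine Fin.cases ?_ (fun i => ?_) i
    · simp [G, D]
    simp [G, D]
  have hcirc : ContDiff ℝ ∞ (circle (k + 2 + 2) 1) := by
    have h1 : circle (k + 2 + 2) 1 = fun t => crv G t - η • crv D t := by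
      rw [hGD]
      funext t
      simp
    rw [h1]
    have c1 : ContDiff ℝ ∞ (fun t => η • crv D t) := (crv_contDiff hD).const_smul η
    exact (crv_contDiff hG).sub c1
  refine ⟨crv G, ⟨crv_contDiff hG, ?_⟩, ?_, ?_⟩
  · rw [hGD]
    intro t
    have h1 := hDp t
    have h2 : circle (k + 2 + 2) 1 (t + 2 * Real.pi) = circle (k + 2 + 2) 1 t := by
      simp [circle]
    simp only [h1, h2]
  · exact nondegenerate_crv hG (ND_step hg hf h hND hη.ne')
  · intro j hj t
    have h1 : iteratedDeriv j (crv G) t = iteratedDeriv j (circle (k + 2 + 2) 1) t +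
        η • iteratedDeriv j (crv D) t := by
      have e : crv G = circle (k + 2 + 2) 1 + η • crv D := hGD
      have c1 : ContDiffAt ℝ (j : ℕ∞ω) (circle (k + 2 + 2) 1) t :=
        hcirc.contDiffAt.of_le (by exact_mod_cast le_top)
      have c2 : ContDiffAt ℝ (j : ℕ∞ω) (crv D) t :=
        (crv_contDiff hD).contDiffAt.of_le (by exact_mod_cast le_top)
      have c3 : ContDiffAt ℝ (j : ℕ∞ω) (η • crv D) t := c2.const_smul η
      rw [e, iteratedDeriv_add c1 c3, iteratedDeriv_const_smul c2]
    rw [h1, add_sub_cancel_left, norm_smul, Real.norm_of_nonneg hη.le]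
    exact (mul_le_mul_of_nonneg_left (hC j t) hη.le).trans_lt (hηC j hj)

theorem mu_eq_one (n : ℕ) (hn : 4 ≤ n) : mu n = 1 := by
  have h1 : (1 : ℕ) ∈ {m : ℕ | 1 ≤ m ∧ Perturbable n m} := ⟨le_rfl, perturbable_one n hn⟩
  have h2 := Nat.sInf_mem ⟨1, h1⟩
  have h3 := Nat.sInf_le h1
  exact le_antisymm h3 h2.1

end Pool.Agent.U123.Curves
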